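import Pool.Agent.Helper69.ISO.Sheet
import Pool.Agent.Helper79.PN.Lem
import Pool.Agent.Helper61.PN.POS

/-!
Rows G2, G3 of the project ISO (MP_7c9036_mp).
-/

set_option autoImplicit false

open scoped Classical

namespace Pool.Agent.Helper49.ISO

open Pool.Agent.Helper79.PN Pool.Agent.Helper69.ISO

theorem G2 : ST_G2 := by
  have hg1 := g_gt
  have hg2 := g_lt
  refine ⟨?_, ?_, ?_⟩
  · intro P c j hW
    obtain ⟨hn, hv, hw⟩ := hW
    obtain ⟨a0, a1, a4, a2, a3⟩ := P.stp c j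
    have hn2 : P.n (c + e j) = 2 := by rw [P.n_add, hn]; norm_num
    refine ⟨hn2, ?_, ?_, ?_⟩
    · rw [inv2 hn2]
      intro i
      rcases cas5 j i with h | h | h | h | h <;> rw [h]
      · linarith [hw j]
      · linarith [hw (j + 1)]
      · linarith [hw (j - 1)]
      · linarith [hw (j + 2)]
      · linarith [hw (j - 2)]
    · linarith [hw (j + 2)]
    · linarith [hw (j - 2)]
  · intro P c m j hX hT
    obtain ⟨hn, hv, x0, x1, x4⟩ := hX
    obtain ⟨hn2, hv2, t2, t3⟩ := hT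
    obtain ⟨a0, a1, a4, a2, a3⟩ := P.stp c j
    rw [inv2 hn2] at hv2
    have h0 : P.h c j < (g - 1) / 2 := by linarith [hv2 j]
    have h2 : P.h c (j + 2) < (g - 1) / 2 := by linarith
    have h3 : P.h c (j - 2) < (g - 1) / 2 := by linarith
    rcases cas5 m j with h | h | h | h | h
    · rw [h] at h0; linarith
    · exact Or.inl h
    · exact Or.inr h
    · rw [h, add_sub_cancel_right] at h3; linarith
    · rw [h, sub_add_cancel] at h2; linarith
  · intro P c m hX
    obtain ⟨h1, h2, -⟩ := Pool.Agent.Helper61.PN.st_POS P c m hX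
    exact ⟨h1, h2⟩

theorem G3 : ST_G3 := by
  intro P z k hz
  obtain ⟨hn, hw⟩ := hz
  have hg1 := g_gt
  have hg2 := g_lt
  have w0 := hw k
  have w1 := hw (k + 1)
  have w4 := hw (k - 1)
  have w2 := hw (k + 2)
  have w3 := hw (k - 2)
  refine ⟨?_, ?_, ?_⟩
  · obtain ⟨a0, a1, a4, a2, a3⟩ := P.stp4 z k
    obtain ⟨b0, b1, b4, b2, b3⟩ := P.stp1 (z + e (k - 1)) k
    have hn4 : P.n (z + e (k - 1) + e (k + 1)) = 4 := by rw [P.n_add, P.n_add, hn]; norm_num
    refine ⟨?_, ?_, ?_, ?_⟩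
    · rw [P.mir_n, neg_neg, hn4]; norm_num
    · rw [inv_mir, inv4 hn4]
      intro i
      rcases cas5 k i with h | h | h | h | h <;> rw [h] <;> linarith
    · rw [P.mir_h, neg_neg]; linarith
    · rw [P.mir_h, neg_neg]; linarith
  · obtain ⟨a0, a1, a4, a2, a3⟩ := P.stp z k
    obtain ⟨b0, b1, b4, b2, b3⟩ := P.stp1 (z + e k) k
    have s0 := P.h_sub_add (z + e k) (k + 1) k
    have s1 := P.h_sub_add (z + e k) (k + 1) (k + 1)
    have s4 := P.h_sub_add (z + e k) (k + 1) (k - 1)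
    have s2 := P.h_sub_add (z + e k) (k + 1) (k + 2)
    have s3 := P.h_sub_add (z + e k) (k + 1) (k - 2)
    have hn2 : P.n (z + e k - e (k + 1)) = 2 := by rw [P.n_sub, P.n_add, hn]; norm_num
    refine ⟨hn2, ?_, ?_, ?_⟩
    · rw [inv2 hn2]
      intro i
      rcases cas5 k i with h | h | h | h | h <;> rw [h] <;> linarith
    · rw [m1p2]; linarith
    · rw [m1m2]; linarith
  · obtain ⟨a0, a1, a4, a2, a3⟩ := P.stp z k
    obtain ⟨b0, b1, b4, b2, b3⟩ := P.stp4 (z + e k) k
    have s0 := P.h_sub_add (z + e k) (k - 1) k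
    have s1 := P.h_sub_add (z + e k) (k - 1) (k + 1)
    have s4 := P.h_sub_add (z + e k) (k - 1) (k - 1)
    have s2 := P.h_sub_add (z + e k) (k - 1) (k + 2)
    have s3 := P.h_sub_add (z + e k) (k - 1) (k - 2)
    have hn2 : P.n (z + e k - e (k - 1)) = 2 := by rw [P.n_sub, P.n_add, hn]; norm_num
    refine ⟨hn2, ?_, ?_, ?_⟩
    · rw [inv2 hn2]
      intro i
      rcases cas5 k i with h | h | h | h | h <;> rw [h] <;> linarith
    · rw [p1p2]; linarith
    · rw [p1m2]; linarith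

end Pool.Agent.Helper49.ISO
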