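import Pool.Agent.Helper69.ISO.Sheet
import Pool.Agent.Helper69.ISO.Tools
import Pool.Agent.Helper79.PN.Lem
import Pool.Agent.Helper79.PN.NB1
import Pool.Agent.Helper97.PN.NB2
import Pool.Agent.Helper49.ISO.G23

/-!
Row B2 of the project ISO (MP_7c9036_mp): relations of full rings.
-/

set_option autoImplicit false

open scoped Classical

namespace Pool.Agent.Helper49.ISO

open Pool.Agent.Helper79.PN Pool.Agent.Helper69.ISO


theorem ring5 (p q h : ZMod 5 → ℝ) (M : ℝ)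
    (H1 : ∀ k, |h k + p k + q (k + 1)| ≤ M) (H2 : ∀ k, |h k + p k + q (k - 1)| ≤ M)
    (H3 : ∀ k, |q k + p (k + 1) + p (k - 1)| ≤ M) :
    ∀ k, |p k - p 0| ≤ 30 * M ∧ |h k - p 0| ≤ 30 * M ∧ |q k + 2 * p 0| ≤ 30 * M := by
  have a0 : |h 0 + p 0 + q 1| ≤ M := H1 0
  have a1 : |h 1 + p 1 + q 2| ≤ M := H1 1
  have a2 : |h 2 + p 2 + q 3| ≤ M := H1 2
  have a3 : |h 3 + p 3 + q 4| ≤ M := H1 3
  have a4 : |h 4 + p 4 + q 0| ≤ M := H1 4
  have b0 : |h 0 + p 0 + q 4| ≤ M := H2 0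
  have b1 : |h 1 + p 1 + q 0| ≤ M := H2 1
  have b2 : |h 2 + p 2 + q 1| ≤ M := H2 2
  have b3 : |h 3 + p 3 + q 2| ≤ M := H2 3
  have b4 : |h 4 + p 4 + q 3| ≤ M := H2 4
  have c0 : |q 0 + p 1 + p 4| ≤ M := H3 0
  have c1 : |q 1 + p 2 + p 0| ≤ M := H3 1
  have c2 : |q 2 + p 3 + p 1| ≤ M := H3 2
  have c3 : |q 3 + p 4 + p 2| ≤ M := H3 3
  have c4 : |q 4 + p 0 + p 3| ≤ M := H3 4
  rw [abs_le] at a0 a1 a2 a3 a4 b0 b1 b2 b3 b4 c0 c1 c2 c3 c4
  obtain ⟨a00, a01⟩ := a0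
  obtain ⟨a10, a11⟩ := a1
  obtain ⟨a20, a21⟩ := a2
  obtain ⟨a30, a31⟩ := a3
  obtain ⟨a40, a41⟩ := a4
  obtain ⟨b00, b01⟩ := b0
  obtain ⟨b10, b11⟩ := b1
  obtain ⟨b20, b21⟩ := b2
  obtain ⟨b30, b31⟩ := b3
  obtain ⟨b40, b41⟩ := b4
  obtain ⟨c00, c01⟩ := c0
  obtain ⟨c10, c11⟩ := c1
  obtain ⟨c20, c21⟩ := c2
  obtain ⟨c30, c31⟩ := c3
  obtain ⟨c40, c41⟩ := c4
  intro k
  have hk : ∀ j : ZMod 5, j = 0 ∨ j = 1 ∨ j = 2 ∨ j = 3 ∨ j = 4 := by decide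
  simp only [abs_le]
  rcases hk k with h' | h' | h' | h' | h' <;> rw [h'] <;>
    refine ⟨⟨?_, ?_⟩, ⟨?_, ?_⟩, ⟨?_, ?_⟩⟩ <;> linarith

/-- the neighbour sum in the mirror image -/
theorem adj_mir (a : Lam → ℝ) (w : Lam) : adj (fun K => a (-K)) (-w) = adj a w := by
  unfold adj
  refine Finset.sum_congr rfl fun i _ => ?_
  show a (-(-w + e i)) + a (-(-w - e i)) = _
  rw [show -(-w + e i) = w - e i by abel, show -(-w - e i) = w + e i by abel, add_comm]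

theorem sup_mir {P : Pen} {a : Lam → ℝ} (h : Sup P a) : Sup P.mir (fun K => a (-K)) := by
  intro K hK
  rw [inv_mir'] at hK
  exact h _ hK

/-- neighbour sums at the vertices of degree 3 of index 4 -/
theorem nb4 {P : Pen} {a : Lam → ℝ} {w : Lam} {k : ZMod 5} (h : T1 P.mir (-w) k) (ha : Sup P a) :
    adj a w = a (w - e k) + a (w - e (k + 1)) + a (w - e (k - 1)) := by
  have h1 := (st_NB1 P.mir (-w) k h).2.2.2.2.2.2 (fun K => a (-K)) (sup_mir ha)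
  rw [adj_mir] at h1
  rw [h1]
  show a (-(-w + e k)) + a (-(-w + e (k + 1))) + a (-(-w + e (k - 1))) = _
  rw [show -(-w + e k) = w - e k by abel, show -(-w + e (k + 1)) = w - e (k + 1) by abel,
    show -(-w + e (k - 1)) = w - e (k - 1) by abel]

/-- neighbour sums at the vertices of degree 3 of index 2 -/
theorem nb2 {P : Pen} {a : Lam → ℝ} {w : Lam} {k : ZMod 5} (h : T2 P w k) (ha : Sup P a) :
    adj a w = a (w - e k) + a (w + e (k + 2)) + a (w + e (k - 2)) :=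
  (Pool.Agent.Helper97.PN.st_NB2 P w k h).2.2.2.2.2.2 a ha

theorem isT_of2 {P : Pen} {w : Lam} {k : ZMod 5} (h : T2 P w k) : IsT P w :=
  ⟨k, Or.inr (Or.inl h)⟩

theorem isT_of4 {P : Pen} {w : Lam} {k : ZMod 5} (h : T1 P.mir (-w) k) : IsT P w :=
  ⟨k, Or.inr (Or.inr (Or.inr h))⟩

/-- small neighbour sums -/
theorem near_adj {P : Pen} {a : Lam → ℝ} {n : ℕ} {c w : Lam} {M : ℝ} (h : Near P a n c M)
    (hw : IsT P w) (D : Lam) (hD : D ∈ Bx n) (e : w = c + D) : |adj a w| ≤ M := by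
  subst e
  have h1 := h D hD
  unfold rr at h1
  rwa [if_pos hw] at h1


theorem sub_mem_Bx {n : ℕ} {D : Lam} (i : ZMod 5) (h : D ∈ Bx n) : D - e i ∈ Bx (n + 1) := by
  rw [sub_eq_add_neg]
  exact add_mem_Bx h (neg_mem_Bx (e_mem_Bx i))

theorem B2 : ST_B2 := by
  intro P a z M ha hz hM
  have key := ring5 (fun k => a (pv z k)) (fun k => a (qv z k)) (fun k => a (hb z k)) M ?_ ?_ ?_
  · exact key
  · intro k
    obtain ⟨-, h2, -⟩ := G3 P z k hz
    have h3 := near_adj hM (isT_of2 h2) (e k - e (k + 1)) (sub_mem_Bx (n := 1) _ (e_mem_Bx k))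
      (by abel)
    rw [nb2 h2 ha] at h3
    have e1 : z + e k - e (k + 1) - e (k - 1) = hb z k := rfl
    have e2 : z + e k - e (k + 1) + e (k - 1 + 2) = pv z k := by
      rw [m1p2]; unfold pv; abel
    have e3 : z + e k - e (k + 1) + e (k - 1 - 2) = qv z (k + 1) := by
      rw [m1m2]; unfold qv; rw [p1m1, p1p1]; abel
    rw [e1, e2, e3] at h3
    exact h3
  · intro k
    obtain ⟨-, -, h2⟩ := G3 P z k hz
    have h3 := near_adj hM (isT_of2 h2) (e k - e (k - 1)) (sub_mem_Bx (n := 1) _ (e_mem_Bx k))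
      (by abel)
    rw [nb2 h2 ha] at h3
    have e1 : z + e k - e (k - 1) - e (k + 1) = hb z k := by unfold hb; abel
    have e2 : z + e k - e (k - 1) + e (k + 1 + 2) = qv z (k - 1) := by
      rw [p1p2]; unfold qv; rw [m1p1, m1m1]; abel
    have e3 : z + e k - e (k - 1) + e (k + 1 - 2) = pv z k := by
      rw [p1m2]; unfold pv; abel
    rw [e1, e2, e3] at h3
    show |a (hb z k) + a (pv z k) + a (qv z (k - 1))| ≤ M
    rwa [show a (hb z k) + a (pv z k) + a (qv z (k - 1)) =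
      a (hb z k) + a (qv z (k - 1)) + a (pv z k) by ring]
  · intro k
    obtain ⟨h1, -, -⟩ := G3 P z k hz
    have h3 := near_adj hM (isT_of4 h1) (e (k - 1) + e (k + 1))
      (add_mem_Bx (m := 1) (n := 1) (e_mem_Bx (k - 1)) (e_mem_Bx (k + 1))) (by abel)
    rw [nb4 h1 ha] at h3
    have e1 : z + e (k - 1) + e (k + 1) - e k = qv z k := rfl
    have e2 : z + e (k - 1) + e (k + 1) - e (k + 1) = pv z (k - 1) := by unfold pv; abel
    have e3 : z + e (k - 1) + e (k + 1) - e (k - 1) = pv z (k + 1) := by unfold pv; abel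
    rw [e1, e2, e3] at h3
    show |a (qv z k) + a (pv z (k + 1)) + a (pv z (k - 1))| ≤ M
    rwa [show a (qv z k) + a (pv z (k + 1)) + a (pv z (k - 1)) =
      a (qv z k) + a (pv z (k - 1)) + a (pv z (k + 1)) by ring]

end Pool.Agent.Helper49.ISO
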