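import Pool.Agent.Helper97.ISO.M2

/-!
Rows M3, M4 of the project ISO (MP_7c9036_mp): wheels and hubs of degree 4.
-/

set_option autoImplicit false

open scoped Classical

namespace Pool.Agent.Helper49.ISO

open Pool.Agent.Helper79.PN Pool.Agent.Helper69.ISO Pool.Agent.Helper97.ISO

theorem vc_back (c : Lam) (i : ZMod 5) :
    vc (c - e i + e (i + 1) + e (i + 1) + e (i - 1) + e (i - 1)) i = c := by
  unfold vc; abel

/-- the hub of a wheel with two outer directions is small -/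
theorem m3_two (hG6 : ST_G6) (hM1 : ST_M1) {P : Pen} {a : Lam → ℝ} {c : Lam} {M : ℝ}
    (hS4 : Sup4 P a) (hO : Orth P a) (hW : Wh P c) (hN : Near P a 20 c M) (i : ZMod 5)
    (h1 : P.h c i < (3 - 2 * g) / 2) (h2 : P.h c (i - 1) < (3 - 2 * g) / 2) :
    |a c| ≤ 200 * M := by
  have hF := hG6 P c i hW h1 h2
  have hz : Near P a 4 (c - e (i + 2) + e (i + 1) + e (i + 3)) M :=
    m2_near_mono (m2_near_add (m2_near_add (m2_near_sub (n := 19) hN _) _) _) (by norm_num)
  have h3 := (hM1 P a _ M hS4 hO hF hz (i + 2)).1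
  rwa [m2_hb2] at h3

theorem M3 (hNSL : ST_NSL) (hG6 : ST_G6) (hG8 : ST_G8) (hK1 : ST_K1) (hB1 : ST_B1)
    (hM1 : ST_M1) (hM2 : ST_M2) : ST_M3 := by
  obtain ⟨C2, hC2, hM2⟩ := hM2
  refine ⟨203 + C2, by linarith, ?_⟩
  intro P a c M hS4 hO hW hN
  have hM := m2_near_nonneg hN
  have hS : Sup P a := fun K hK => hS4 K (Or.inl hK)
  have b1 := hB1 P a c M hS hW (m2_near_mono hN (by norm_num))
  have hCM : 0 ≤ C2 * M := mul_nonneg hC2 hM
  have main : |a c| ≤ (200 + C2) * M := by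
    by_cases hall : ∀ j, (3 - 2 * g) / 2 < P.h c j
    · have k1 := hK1 P a c hO hW.1 hall
      rw [sum5 0] at k1
      have k2 : 2 * a c = a (rim c 0) + a (rim c 1) + a (rim c 4) + a (rim c 2) +
        a (rim c 3) := k1
      have c0 := b1 0
      have c1 := b1 1
      have c4 := b1 4
      have c2 := b1 2
      have c3 := b1 3
      clear k1
      rw [abs_le] at c0 c1 c2 c3 c4 ⊢
      obtain ⟨c00, c01⟩ := c0
      obtain ⟨c10, c11⟩ := c1
      obtain ⟨c20, c21⟩ := c2
      obtain ⟨c30, c31⟩ := c3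
      obtain ⟨c40, c41⟩ := c4
      constructor <;> linarith
    · push Not at hall
      obtain ⟨i, hi⟩ := hall
      have hi' : P.h c i < (3 - 2 * g) / 2 := lt_of_le_of_ne hi (hNSL.1 P c i hW.1).2
      by_cases h2 : P.h c (i - 1) < (3 - 2 * g) / 2
      · have := m3_two hG6 hM1 hS4 hO hW hN i hi' h2
        linarith
      · by_cases h3 : P.h c (i + 1) < (3 - 2 * g) / 2
        · have := m3_two hG6 hM1 hS4 hO hW hN (i + 1) h3 (by rwa [p1m1])
          linarith
        · obtain ⟨hn, hu⟩ := hG8 P c i hW hi' (not_lt.mp h2) (not_lt.mp h3)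
          have hN' : Near P a 12
              (c - e i + e (i + 1) + e (i + 1) + e (i - 1) + e (i - 1)) M :=
            m2_near_mono (m2_near_add (m2_near_add (m2_near_add (m2_near_add
              (m2_near_sub (n := 19) hN _) _) _) _) _) (by norm_num)
          have h4 := hM2 P a _ M hS4 hO hn hu hN' i
          rw [vc_back] at h4
          linarith
  refine ⟨by linarith, fun j => ?_⟩
  have c0 := b1 j
  rw [abs_le] at c0 main ⊢
  obtain ⟨c00, c01⟩ := c0
  obtain ⟨m0, m1⟩ := main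
  constructor <;> linarith

theorem x_hb (c : Lam) (m : ZMod 5) : hb (c - e m + e (m + 1) + e (m - 1)) m = c := by
  unfold hb; abel

theorem x_q4 (c : Lam) (m : ZMod 5) :
    qv (c - e m + e (m + 1) + e (m - 1)) (m - 1) = rim c (m + 1) := by
  unfold qv rim
  rw [m1m1, m1p1, p1p2]
  abel

theorem x_p (c : Lam) (m : ZMod 5) : pv (c - e m + e (m + 1) + e (m - 1)) m = rim c (m - 1) := by
  unfold pv rim
  rw [m1p2]
  abel

theorem x_q1 (c : Lam) (m : ZMod 5) :
    qv (c - e m + e (m + 1) + e (m - 1)) (m + 1) = rim c (m - 3) := by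
  unfold qv rim
  rw [p1m1, p1p1, m2_m1m3, p2p2]
  abel

theorem M4 (hG5 : ST_G5) (hM1 : ST_M1) (hM3 : ST_M3) (hB3 : ST_B3) : ST_M4 := by
  obtain ⟨C3, hC3, hM3⟩ := hM3
  refine ⟨200 + C3, by linarith, ?_⟩
  intro P a c m M hS4 hO hX hN
  have hM := m2_near_nonneg hN
  have hS : Sup P a := fun K hK => hS4 K (Or.inl hK)
  have hCM : 0 ≤ C3 * M := mul_nonneg hC3 hM
  have hz : Near P a 27 (c - e m + e (m + 1) + e (m - 1)) M :=
    m2_near_add (m2_near_add (m2_near_sub (n := 29) hN _) _) _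
  rcases hG5 P c m hX with hF | hA
  · have h1 := hM1 P a _ M hS4 hO hF (m2_near_mono hz (by norm_num))
    have c0 := (h1 m).1
    have c1 := (h1 m).2.1
    have c2 := (h1 (m - 1)).2.2
    have c3 := (h1 (m + 1)).2.2
    rw [x_hb] at c0
    rw [x_p] at c1
    rw [x_q4] at c2
    rw [x_q1] at c3
    refine ⟨?_, ?_, ?_, ?_⟩ <;> linarith
  · obtain ⟨c1, c2, c3, c4, c5⟩ := hB3 P a _ m M hS hA (m2_near_mono hz (by norm_num))
    have hh : Near P a 20 (hb (c - e m + e (m + 1) + e (m - 1)) (m + 2)) M := by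
      unfold hb
      exact m2_near_mono (m2_near_sub (m2_near_sub (m2_near_add (n := 26) hz _) _) _)
        (by norm_num)
    have c6 := (hM3 P a _ M hS4 hO hA.2.1 hh).1
    rw [x_hb] at c2
    rw [x_p] at c3
    rw [x_q1] at c4
    rw [x_q4] at c5
    rw [abs_le] at c1 c2 c3 c4 c5 c6
    obtain ⟨c10, c11⟩ := c1
    obtain ⟨c20, c21⟩ := c2
    obtain ⟨c30, c31⟩ := c3
    obtain ⟨c40, c41⟩ := c4
    obtain ⟨c50, c51⟩ := c5
    obtain ⟨c60, c61⟩ := c6
    refine ⟨?_, ?_, ?_, ?_⟩ <;> rw [abs_le] <;> constructor <;> linarith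

end Pool.Agent.Helper49.ISO
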